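import Pool.Agent.H70.EndN

namespace Pool.Agent.Results.MP_0c7c8f_al.NoFinest

open Topology

theorem result :
    ¬ ∃ t : TopologicalSpace (((· < ·) : ℕ → ℕ → Prop) →r ((· < ·) : ℕ → ℕ → Prop)),
      (@ContinuousMul _ t _ ∧ @PolishSpace _ t) ∧
      ∀ t' : TopologicalSpace (((· < ·) : ℕ → ℕ → Prop) →r ((· < ·) : ℕ → ℕ → Prop)),
        @ContinuousMul _ t' _ → @PolishSpace _ t' → ∀ U, IsOpen[t'] U → IsOpen[t] U :=
  fun ⟨t, h1, h2⟩ => Pool.Agent.H70.EndN.main ⟨t, fun t' a b =>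
    ⟨@PolishSpace.toSecondCountableTopology _ t h1.2, h2 t' a b⟩⟩

end Pool.Agent.Results.MP_0c7c8f_al.NoFinest
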